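import Pool.Agent.U378.TF.R6.Tab
import Pool.Agent.U378.TF.R2.Tab
import Pool.Agent.U378.TF.R7.Tab

/-! Tables for the rules. -/

set_option autoImplicit false
set_option maxRecDepth 100000

namespace Pool.Agent.U378.TF

open Pool.Agent.H122R2.FdF (nall nsum nall_true nsum_eq)

/-- type of the code of a triple -/
def tp (c : ℕ) : ℕ := tyS R6.TY c

/-- the triples of the class `{1, 2, 3}`, in terms of the digits -/
def dB (x y z : ℕ) : Bool :=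
  (Nat.ble 2 x && Nat.ble 2 y && Nat.beq (z % 2) 0 && !(Nat.beq (x % 2) 0 && Nat.beq (y % 2) 0))

def d14B : Bool := nall 4 fun x => nall 4 fun y => nall 4 fun z =>
  !(Nat.beq (bit 14 (tp (q4 x y z))) 1) || (dB x y z || (dB (rv x) z y || dB (rv y) (rv z) x))

theorem d14B_true : d14B = true := by decide +kernel

theorem dB_iff {x y z : ℕ} (h : dB x y z = true) :
    2 ≤ x ∧ 2 ≤ y ∧ z % 2 = 0 ∧ ¬ (x % 2 = 0 ∧ y % 2 = 0) := by
  unfold dB at h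
  simp only [Bool.and_eq_true, Bool.not_eq_true', Bool.and_eq_false_iff] at h
  obtain ⟨⟨⟨h1, h2⟩, h3⟩, h4⟩ := h
  refine ⟨Nat.le_of_ble_eq_true h1, Nat.le_of_ble_eq_true h2, Nat.eq_of_beq_eq_true h3, ?_⟩
  rintro ⟨h5, h6⟩
  rw [h5, h6] at h4
  rcases h4 with h4 | h4 <;> exact absurd h4 (by decide)

theorem dig14 {x y z : ℕ} (hx : x < 4) (hy : y < 4) (hz : z < 4)
    (h : bit 14 (tp (q4 x y z)) = 1) :
    (2 ≤ x ∧ 2 ≤ y ∧ z % 2 = 0 ∧ ¬ (x % 2 = 0 ∧ y % 2 = 0)) ∨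
    (2 ≤ rv x ∧ 2 ≤ z ∧ y % 2 = 0 ∧ ¬ (rv x % 2 = 0 ∧ z % 2 = 0)) ∨
    (2 ≤ rv y ∧ 2 ≤ rv z ∧ x % 2 = 0 ∧ ¬ (rv y % 2 = 0 ∧ rv z % 2 = 0)) := by
  have h1 := nall_true (nall_true (nall_true d14B_true x hx) y hy) z hz
  rw [h, Bool.or_eq_true, Bool.or_eq_true, Bool.or_eq_true] at h1
  rcases h1 with h1 | h1 | h1 | h1
  · exact absurd h1 (by decide)
  · exact Or.inl (dB_iff h1)
  · exact Or.inr (Or.inl (dB_iff h1))
  · exact Or.inr (Or.inr (dB_iff h1))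

theorem rv_two : ∀ x < 4, 2 ≤ x → ¬ 2 ≤ rv x := by decide +kernel
theorem rv_mod : ∀ x < 4, rv x % 2 = x % 2 := by decide +kernel

def gs (k s : ℕ) : ℕ := (([[0, 1, 2, 3], [1, 0, 3, 2], [0, 3, 2, 1], [3, 0, 1, 2], [2, 1, 0, 3],
  [1, 2, 3, 0], [2, 3, 0, 1], [3, 2, 1, 0]] : List (List ℕ)).getD k []).getD s 0

theorem gs_lt : ∀ k < 8, ∀ s < 4, gs k s < 4 := by decide +kernel
theorem gs_rv : ∀ k < 8, ∀ s < 4, gs k (rv s) = rv (gs k s) := by decide +kernel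

def gc (k c : ℕ) : ℕ := q4 (gs k (dg0 c)) (gs k (dg1 c)) (gs k (dg2 c))

/-- the maximal rules: mask, symmetry, representative -/
def RL : List (ℕ × ℕ × ℕ) := [(14, 0, 14), (42, 7, 14), (60, 0, 60), (102, 2, 450), (116, 4, 450),
  (152, 4, 14), (280, 5, 14), (394, 3, 60), (450, 0, 450), (464, 6, 450), (532, 6, 14),
  (550, 6, 60), (560, 1, 14), (642, 2, 14), (770, 3, 14), (912, 2, 60), (2092, 5, 450),
  (2148, 0, 2148), (2440, 7, 450), (2496, 2, 2148), (2596, 3, 450), (2944, 1, 450)]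

theorem RL_chk : ∀ x ∈ RL, x.2.1 < 8 ∧ x.2.2 ∈ [14, 60, 450, 2148] ∧
    ∀ c < 64, bit x.1 (tp c) = 1 → bit x.2.2 (tp (gc x.2.1 c)) = 1 := by decide +kernel


theorem m450 : ∀ c < 64, bit 450 (tp c) = 1 → tyS R6.TY c ∈ [1, 6, 7, 8] := by decide +kernel
theorem m60 : ∀ c < 64, bit 60 (tp c) = 1 → tyS R2.TY c ∈ [2, 3, 4, 5] := by decide +kernel
theorem m2148 : ∀ c < 64, bit 2148 (tp c) = 1 → tyS R7.TY c ∈ [2, 5, 6, 11] := by decide +kernel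

end Pool.Agent.U378.TF
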