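import Pool.Agent.U378.TF.R6.Cert
import Pool.Agent.U378.TF.R2.Cert
import Pool.Agent.U378.TF.R7.Cert
import Pool.Agent.U378.TF.Blow
import Pool.Agent.U378.TF.Codes
import Pool.Agent.U378.Tour.Enc
import Pool.Agent.W38.TO.Bridge

/-! The bounds for the four classes of maximal rules. -/

set_option autoImplicit false
set_option maxRecDepth 100000
open Finset
open scoped Classical

namespace Pool.Agent.U378.TF

theorem cert_cnt {TY PA AC AF nt X κ a : ℕ} {T O : ℕ → ℕ} (h : Cert TY PA AC AF nt T O X)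
    (L : List ℕ) (hO : ∀ t, O t = 8388608 + κ * (if t ∈ L then 1 else 0))
    (hX : X = 83886080 + a) (hκ : 0 < κ) (ha : 9 * a ≤ 50 * κ) (V : Type) [Fintype V]
    (rel : V → V → ℕ) (hr : Rel4 rel) :
    cnt (fun c => tyS TY c ∈ L) rel ≤ 5 / 9 * (Fintype.card V : ℝ) ^ 3 := by
  refine blow (C := 1677721600 / (10 * (κ : ℝ))) (D := 5 / 9) ?_ V rel hr
  intro V _ hn rel hr
  have h1 := flag5 h hn hr
  set n : ℝ := (Fintype.card V : ℝ) with hnd
  have hn0 : 0 < n := by rw [hnd]; exact_mod_cast hn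
  have hκr : (0 : ℝ) < κ := by exact_mod_cast hκ
  have har : (9 : ℝ) * a ≤ 50 * κ := by exact_mod_cast ha
  set S : ℝ := ∑ a : V, ∑ b : V, ∑ c : V, (if tyS TY (c3 rel a b c) ∈ L then (1 : ℝ) else 0)
    with hS
  have e : ∑ a : V, ∑ b : V, ∑ c : V, (O (tyS TY (c3 rel a b c)) : ℝ)
      = 8388608 * n ^ 3 + κ * S := by
    rw [hS]
    simp only [hO, mul_sum]
    have e1 : (8388608 : ℝ) * n ^ 3 = ∑ _a : V, ∑ _b : V, ∑ _c : V, (8388608 : ℝ) := by
      simp only [sum_const, card_univ, nsmul_eq_mul]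
      rw [hnd]
      ring
    rw [e1, ← sum_add_distrib]
    refine sum_congr rfl fun a _ => ?_
    rw [← sum_add_distrib]
    refine sum_congr rfl fun b _ => ?_
    rw [← sum_add_distrib]
    refine sum_congr rfl fun c _ => ?_
    push_cast
    ring
  rw [e, hX] at h1
  push_cast at h1
  have h2 : (10 * κ * n ^ 2) * S ≤ (10 * κ * n ^ 2) *
      (5 / 9 * n ^ 3 + 1677721600 / (10 * (κ : ℝ)) * n ^ 2) := by
    have e2 : (10 * κ * n ^ 2) * (5 / 9 * n ^ 3 + 1677721600 / (10 * (κ : ℝ)) * n ^ 2)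
        = 50 / 9 * κ * n ^ 5 + 1677721600 * n ^ 4 := by
      field_simp
      ring
    rw [e2]
    have h3 : (a : ℝ) * n ^ 5 ≤ 50 / 9 * κ * n ^ 5 :=
      mul_le_mul_of_nonneg_right (by linarith) (by positivity)
    nlinarith
  have h4 := le_of_mul_le_mul_left h2 (by positivity : 0 < 10 * (κ : ℝ) * n ^ 2)
  rw [hS] at h4
  refine le_trans (le_of_eq ?_) h4
  refine sum_congr rfl fun a _ => sum_congr rfl fun b _ => sum_congr rfl fun c _ => ?_
  by_cases hh : tyS TY (c3 rel a b c) ∈ L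
  · rw [if_pos hh, if_pos hh]
  · rw [if_neg hh, if_neg hh]

theorem cnt_mono {R R' : ℕ → Prop} {V : Type} [Fintype V] {rel : V → V → ℕ} (hr : Rel4 rel)
    (h : ∀ c < 64, R c → R' c) : cnt R rel ≤ cnt R' rel := by
  unfold cnt
  refine sum_le_sum fun a _ => sum_le_sum fun b _ => sum_le_sum fun c _ => ?_
  by_cases h1 : a ≠ b ∧ a ≠ c ∧ b ≠ c ∧ R (c3 rel a b c)
  · rw [if_pos h1, if_pos ⟨h1.1, h1.2.1, h1.2.2.1, h _ (c3_lt hr _ _ _) h1.2.2.2⟩]
  · rw [if_neg h1]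
    split_ifs <;> norm_num

theorem cnt450 {V : Type} [Fintype V] {rel : V → V → ℕ} (hr : Rel4 rel) :
    cnt (fun c => bit 450 (tp c) = 1) rel ≤ 5 / 9 * (Fintype.card V : ℝ) ^ 3 := by
  refine le_trans (cnt_mono hr (R' := fun c => tyS R6.TY c ∈ [1, 6, 7, 8]) m450)
    (cert_cnt R6.cert [1, 6, 7, 8] (κ := 27000) (a := 150000) (fun _ => rfl) rfl (by norm_num)
      (by norm_num) V rel hr)

theorem cnt60 {V : Type} [Fintype V] {rel : V → V → ℕ} (hr : Rel4 rel) :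
    cnt (fun c => bit 60 (tp c) = 1) rel ≤ 5 / 9 * (Fintype.card V : ℝ) ^ 3 := by
  refine le_trans (cnt_mono hr (R' := fun c => tyS R2.TY c ∈ [2, 3, 4, 5]) m60)
    (cert_cnt R2.cert [2, 3, 4, 5] (κ := 900) (a := 5000) (fun _ => rfl) rfl (by norm_num)
      (by norm_num) V rel hr)

theorem cnt2148 {V : Type} [Fintype V] {rel : V → V → ℕ} (hr : Rel4 rel) :
    cnt (fun c => bit 2148 (tp c) = 1) rel ≤ 5 / 9 * (Fintype.card V : ℝ) ^ 3 := by
  refine le_trans (cnt_mono hr (R' := fun c => tyS R7.TY c ∈ [2, 5, 6, 11]) m2148)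
    (cert_cnt R7.cert [2, 5, 6, 11] (κ := 9) (a := 50) (fun _ => rfl) rfl (by norm_num)
      (by norm_num) V rel hr)

theorem card_le_cnt {n : ℕ} {H : Finset (Finset (Fin n))} (hH : ∀ e ∈ H, e.card = 3)
    {rel : Fin n → Fin n → ℕ} {R : ℕ → Prop}
    (h : ∀ a b c : Fin n, a ≠ b → a ≠ c → b ≠ c → ({a, b, c} : Finset (Fin n)) ∈ H →
      R (c3 rel a b c)) : (6 : ℝ) * H.card ≤ cnt R rel := by
  have h1 := Pool.Agent.W38.TO.six_le hH
  have h2 : (6 : ℝ) * H.card ≤ ((∑ a : Fin n, ∑ b : Fin n, ∑ c : Fin n,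
      (if ({a, b, c} : Finset (Fin n)) ∈ H then 1 else 0) : ℕ) : ℝ) := by exact_mod_cast h1
  refine h2.trans ?_
  push_cast
  unfold cnt
  refine sum_le_sum fun a _ => sum_le_sum fun b _ => sum_le_sum fun c _ => ?_
  by_cases h3 : ({a, b, c} : Finset (Fin n)) ∈ H
  · obtain ⟨g1, g2, g3⟩ := Pool.Agent.W38.TO.card_of_triple (hH _ h3)
    rw [if_pos h3, if_pos ⟨g1, g2, g3, h a b c g1 g2 g3 h3⟩]
  · rw [if_neg h3]
    split_ifs <;> norm_num

/-! ### the class of the rule `{1, 2, 3}` -/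

theorem turan_le (n : ℕ) : 54 * (n.choose 3 - Pool.Agent.U378.Tour.Enc.turan n) ≤ 5 * n ^ 3 := by
  have h6 : 6 * n.choose 3 = n * (n - 1) * (n - 2) := by
    have := Nat.descFactorial_eq_factorial_mul_choose n 3
    have e : n.descFactorial 3 = (n - 2) * ((n - 1) * n) := by
      simp [Nat.descFactorial]
    rw [e] at this
    have f3 : Nat.factorial 3 = 6 := rfl
    rw [f3] at this
    rw [← this]
    ring
  unfold Pool.Agent.U378.Tour.Enc.turan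
  obtain ⟨s, r, hr, hn⟩ : ∃ s r : ℕ, r < 3 ∧ n = 3 * s + r :=
    ⟨n / 3, n % 3, Nat.mod_lt _ (by norm_num), by omega⟩
  subst hn
  have d : (3 * s + r) / 3 = s := by omega
  have m : (3 * s + r) % 3 = r := by omega
  rw [d, m]
  interval_cases r
  · rw [if_pos rfl]
    rcases Nat.eq_zero_or_pos s with h0 | h0
    · subst h0; simp
    obtain ⟨k, rfl⟩ : ∃ k, s = k + 1 := ⟨s - 1, by omega⟩
    have e1 : 3 * (k + 1) + 0 - 1 = 3 * k + 2 := by omega
    have e2 : 3 * (k + 1) + 0 - 2 = 3 * k + 1 := by omega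
    rw [e1, e2] at h6
    have e3 : k + 1 - 1 = k := by omega
    have e4 : 2 * (k + 1) - 1 = 2 * k + 1 := by omega
    rw [e3, e4]
    have : 54 * (3 * (k + 1) + 0).choose 3 ≤ 5 * (3 * (k + 1) + 0) ^ 3
        + 54 * ((k + 1) * k * (2 * k + 1)) := by nlinarith
    omega
  · rw [if_neg (by norm_num), if_pos rfl]
    rcases Nat.eq_zero_or_pos s with h0 | h0
    · subst h0; decide
    obtain ⟨k, rfl⟩ : ∃ k, s = k + 1 := ⟨s - 1, by omega⟩
    have e1 : 3 * (k + 1) + 1 - 1 = 3 * k + 3 := by omega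
    have e2 : 3 * (k + 1) + 1 - 2 = 3 * k + 2 := by omega
    rw [e1, e2] at h6
    have e4 : 2 * (k + 1) - 1 = 2 * k + 1 := by omega
    rw [e4]
    have : 54 * (3 * (k + 1) + 1).choose 3 ≤ 5 * (3 * (k + 1) + 1) ^ 3
        + 54 * ((k + 1) ^ 2 * (2 * k + 1)) := by nlinarith
    omega
  · rw [if_neg (by norm_num), if_neg (by norm_num)]
    have e1 : 3 * s + 2 - 1 = 3 * s + 1 := by omega
    have e2 : 3 * s + 2 - 2 = 3 * s := by omega
    rw [e1, e2] at h6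
    have : 54 * (3 * s + 2).choose 3 ≤ 5 * (3 * s + 2) ^ 3
        + 54 * (s ^ 2 * (2 * s + 1)) := by nlinarith
    omega

theorem bound14 {n : ℕ} {H : Finset (Finset (Fin n))} (hH : ∀ e ∈ H, e.card = 3)
    {rel : Fin n → Fin n → ℕ} (hr : Rel4 rel)
    (h : ∀ a b c : Fin n, a ≠ b → a ≠ c → b ≠ c → ({a, b, c} : Finset (Fin n)) ∈ H →
      bit 14 (tp (c3 rel a b c)) = 1) : 54 * H.card ≤ 5 * n ^ 3 := by
  set D : Fin n → Fin n → Prop := fun x y => x ≠ y ∧ 2 ≤ rel x y with hD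
  set P : Fin n → Fin n → Prop := fun x y => x ≠ y ∧ rel x y % 2 = 0 with hP
  have hD1 : ∀ x y, D x y → ¬ D y x := by
    intro x y h1 h2
    have h3 := hr.rev x y h1.1
    have h4 := h2.2
    rw [h3] at h4
    exact rv_two _ (hr.lt x y) h1.2 h4
  have hP1 : ∀ x y, P x y → P y x := by
    intro x y h1
    refine ⟨h1.1.symm, ?_⟩
    rw [hr.rev x y h1.1, rv_mod _ (hr.lt x y)]
    exact h1.2
  have hsub : H ⊆ Pool.Agent.U378.Tour.Enc.encoded D P := by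
    intro e he
    obtain ⟨a, b, c, hab, hac, hbc, rfl⟩ := card_eq_three.1 (hH e he)
    have h1 := dig14 (hr.lt a b) (hr.lt a c) (hr.lt b c) (h a b c hab hac hbc he)
    refine Pool.Agent.U378.Tour.Enc.mem_enc (hH _ he) ?_
    rw [← hr.rev a b hab, ← hr.rev a c hac, ← hr.rev b c hbc] at h1
    rcases h1 with ⟨g1, g2, g3, g4⟩ | ⟨g1, g2, g3, g4⟩ | ⟨g1, g2, g3, g4⟩
    · exact ⟨a, by simp, b, by simp, c, by simp, hbc, ⟨hab, g1⟩, ⟨hac, g2⟩, ⟨hbc, g3⟩,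
        fun h5 => g4 ⟨h5.1.2, h5.2.2⟩⟩
    · exact ⟨b, by simp, a, by simp, c, by simp, hac, ⟨hab.symm, g1⟩, ⟨hbc, g2⟩, ⟨hac, g3⟩,
        fun h5 => g4 ⟨h5.1.2, h5.2.2⟩⟩
    · exact ⟨c, by simp, a, by simp, b, by simp, hab, ⟨hac.symm, g1⟩, ⟨hbc.symm, g2⟩, ⟨hab, g3⟩,
        fun h5 => g4 ⟨h5.1.2, h5.2.2⟩⟩
  have h2 := Pool.Agent.U378.Tour.Enc.upper hD1 hP1
  have h3 := card_le_card hsub
  have h4 := turan_le n
  omega

theorem base_bound {n : ℕ} {H : Finset (Finset (Fin n))} (hH : ∀ e ∈ H, e.card = 3)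
    {rel : Fin n → Fin n → ℕ} (hr : Rel4 rel) {b : ℕ} (hb : b ∈ [14, 60, 450, 2148])
    (h : ∀ x y z : Fin n, x ≠ y → x ≠ z → y ≠ z → ({x, y, z} : Finset (Fin n)) ∈ H →
      bit b (tp (c3 rel x y z)) = 1) : 54 * H.card ≤ 5 * n ^ 3 := by
  have fin : cnt (fun c => bit b (tp c) = 1) rel ≤ 5 / 9 * (Fintype.card (Fin n) : ℝ) ^ 3 →
      54 * H.card ≤ 5 * n ^ 3 := by
    intro h1
    have h2 := (card_le_cnt hH h).trans h1
    rw [Fintype.card_fin] at h2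
    have h3 : (54 : ℝ) * H.card ≤ 5 * (n : ℝ) ^ 3 := by linarith
    exact_mod_cast h3
  simp only [List.mem_cons, List.not_mem_nil, or_false] at hb
  rcases hb with rfl | rfl | rfl | rfl
  · exact bound14 hH hr h
  · exact fin (cnt60 hr)
  · exact fin (cnt450 hr)
  · exact fin (cnt2148 hr)

/-! ### the eight symmetries -/

theorem rel_g {V : Type} {rel : V → V → ℕ} (hr : Rel4 rel) {k : ℕ} (hk : k < 8) :
    Rel4 (fun x y => gs k (rel x y)) where
  lt := fun x y => gs_lt k hk _ (hr.lt x y)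
  rev := fun x y h => by
    show gs k (rel y x) = rv (gs k (rel x y))
    rw [hr.rev x y h, gs_rv k hk _ (hr.lt x y)]

theorem c3_g {V : Type} {rel : V → V → ℕ} (hr : Rel4 rel) (k : ℕ) (a b c : V) :
    c3 (fun x y => gs k (rel x y)) a b c = gc k (c3 rel a b c) := by
  unfold gc c3
  rw [dg0_q4 (hr.lt _ _), dg1_q4 (hr.lt _ _) (hr.lt _ _), dg2_q4 (hr.lt _ _) (hr.lt _ _)]

theorem max_bound {n : ℕ} {H : Finset (Finset (Fin n))} (hH : ∀ e ∈ H, e.card = 3)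
    {rel : Fin n → Fin n → ℕ} (hr : Rel4 rel) {M : ℕ × ℕ × ℕ} (hM : M ∈ RL)
    (h : ∀ x y z : Fin n, x ≠ y → x ≠ z → y ≠ z → ({x, y, z} : Finset (Fin n)) ∈ H →
      bit M.1 (tp (c3 rel x y z)) = 1) : 54 * H.card ≤ 5 * n ^ 3 := by
  obtain ⟨h1, h2, h3⟩ := RL_chk M hM
  refine base_bound hH (rel_g hr h1) h2 fun x y z hxy hxz hyz hm => ?_
  rw [c3_g hr]
  exact h3 _ (c3_lt hr _ _ _) (h x y z hxy hxz hyz hm)

end Pool.Agent.U378.TF
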