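import Pool.Agent.U378.TF.Perm

/-! From the checks of the leaves marked in the bitmaps to all tuples. -/

set_option autoImplicit false
set_option maxRecDepth 100000
open Finset

namespace Pool.Agent.U378.TF

open Pool.Agent.H122R2.FdF (nall nsum nall_true nsum_eq)

theorem beq_of_ne {a b : ℕ} (h : a ≠ b) : Nat.beq a b = false := by
  cases hb : Nat.beq a b
  · rfl
  · exact absurd (Nat.eq_of_beq_eq_true hb) h

theorem rv_lt (d : ℕ) : rv d < 4 := Nat.mod_lt _ (by norm_num)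

theorem A4b_true {k bm : ℕ} {f : ℕ → ℕ → ℕ → Bool} (h : A4b k bm f = true) {d : ℕ}
    (hd : d < 4) (hz : sb k bm d ≠ 0) : f d (rv d) (sb k bm d) = true := by
  have h' : (cond (Nat.beq (sb k bm 0) 0) true (f 0 2 (sb k bm 0)) &&
    (cond (Nat.beq (sb k bm 1) 0) true (f 1 3 (sb k bm 1)) &&
      (cond (Nat.beq (sb k bm 2) 0) true (f 2 0 (sb k bm 2)) &&
        cond (Nat.beq (sb k bm 3) 0) true (f 3 1 (sb k bm 3))))) = true := h
  simp only [Bool.and_eq_true] at h'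
  obtain ⟨h0, h1, h2, h3⟩ := h'
  interval_cases d
  · rw [beq_of_ne hz, cond_false] at h0; exact h0
  · rw [beq_of_ne hz, cond_false] at h1; exact h1
  · rw [beq_of_ne hz, cond_false] at h2; exact h2
  · rw [beq_of_ne hz, cond_false] at h3; exact h3

theorem A4c_true {k bm : ℕ} {f : ℕ → ℕ → ℕ → Bool} (h : A4c k bm f = true) {d : ℕ}
    (hd : d < 4) : f d (rv d) (sb k bm d) = true := by
  have h' : (f 0 2 (sb k bm 0) && (f 1 3 (sb k bm 1) &&
      (f 2 0 (sb k bm 2) && f 3 1 (sb k bm 3)))) = true := h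
  simp only [Bool.and_eq_true] at h'
  obtain ⟨h0, h1, h2, h3⟩ := h'
  interval_cases d
  · exact h0
  · exact h1
  · exact h2
  · exact h3

theorem sb_zero (k d : ℕ) : sb k 0 d = 0 := by
  show (0 >>> (d * k)) % 2 ^ k = 0
  simp

theorem sb_ne {k bm d : ℕ} (h : sb k bm d ≠ 0) : bm ≠ 0 := by
  rintro rfl
  exact h (sb_zero k d)

theorem nest_true {a a' b b' c c' d d' BM : ℕ} {F : F20}
    (h : nest a a' b b' c c' d d' BM F = true)
    {e f g i j l : ℕ} (he : e < 4)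
    (hf : f < 4) (hg : g < 4) (hi : i < 4) (hj : j < 4) (hl : l < 4)
    (hz : bitD BM e f g i j l ≠ 0) :
    F a a' b b' c c' d d' e (rv e) f (rv f) g (rv g) i (rv i) j (rv j) l (rv l) = true := by
  unfold bitD at hz
  have z5 := sb_ne hz
  have z4 := sb_ne z5
  have z3 := sb_ne z4
  have z2 := sb_ne z3
  have z1 := sb_ne z2
  exact A4b_true (A4b_true (A4b_true (A4b_true (A4b_true (A4b_true
    h he z1) hf z2) hg z3) hi z4) hj z5) hl hz

theorem lt'_true {a b : ℕ} (h : lt' a b = true) : a < b := Nat.le_of_ble_eq_true h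

theorem k4_lt {x y z u : ℕ} (hx : x < 4) (hy : y < 4) (hz : z < 4) (hu : u < 4) :
    k4 x y z u < 256 := by
  show 64 * x + (16 * y + (4 * z + u)) < 256
  omega

theorem k3_lt {x y z : ℕ} (hx : x < 4) (hy : y < 4) (hz : z < 4) : k3 x y z < 64 := by
  show 16 * x + (4 * y + z) < 64
  omega

theorem k10_of_k6 {a b c d e f a' b' c' d' e' f' g h i j g' h' i' j' : ℕ}
    (hk : k6 a' b' c' d' e' f' < k6 a b c d e f) (h1 : g' < 4) (h2 : h' < 4) (h3 : i' < 4)
    (h4 : j' < 4) : k10 a' b' c' d' e' f' g' h' i' j' < k10 a b c d e f g h i j := by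
  have := k4_lt h1 h2 h3 h4
  show 256 * k6 a' b' c' d' e' f' + k4 g' h' i' j' < 256 * k6 a b c d e f + k4 g h i j
  omega

theorem k10_of_k3 {a b c d e f a' b' c' d' e' f' g h i j g' h' i' j' : ℕ}
    (hk : k3 a' b' c' < k3 a b c) (h5 : d' < 4) (h6 : e' < 4) (h7 : f' < 4)
    (h1 : g' < 4) (h2 : h' < 4) (h3 : i' < 4) (h4 : j' < 4) :
    k10 a' b' c' d' e' f' g' h' i' j' < k10 a b c d e f g h i j := by
  refine k10_of_k6 ?_ h1 h2 h3 h4
  have := k3_lt h5 h6 h7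
  show 64 * k3 a' b' c' + k3 d' e' f' < 64 * k3 a b c + k3 d e f
  omega

theorem lmc_true {a b c d BM : ℕ} (h : lmc a (rv a) b c (rv c) d BM = true) {e f g i j l : ℕ}
    (hb : b < 4) (hd : d < 4) (he : e < 4)
    (hf : f < 4) (hg : g < 4) (hi : i < 4) (hj : j < 4) (hl : l < 4)
    (h0 : k10 a b c d e f g i j l ≤ k10 (rv a) c b e d f i g j l)
    (h1 : k10 a b c d e f g i j l ≤ k10 b a (rv c) d f e g j i l)
    (h2 : k10 a b c d e f g i j l ≤ k10 a d e b c (rv f) g i l j)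
    (h3 : k10 a b c d e f g i j l ≤ k10 a b c g i j d e f (rv l)) :
    bitD BM e f g i j l ≠ 0 := by
  have ra := rv_lt a
  have rc := rv_lt c
  have rf := rv_lt f
  have q1 := h
  unfold lmc at q1
  rw [Bool.or_eq_true, Bool.or_eq_true] at q1
  rcases q1 with (q1 | q1) | q1
  · exact absurd (k10_of_k3 (lt'_true q1) he hd hf hi hg hj hl) (not_lt.mpr h0)
  · exact absurd (k10_of_k3 (lt'_true q1) hd hf he hg hj hi hl) (not_lt.mpr h1)
  have q2 := A4c_true (A4c_true q1 he) hf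
  rw [Bool.or_eq_true, Bool.or_eq_true, Bool.or_eq_true] at q2
  rcases q2 with (q2 | q2 | q2) | q2
  · exact absurd (k10_of_k6 (lt'_true q2) hi hg hj hl) (not_lt.mpr h0)
  · exact absurd (k10_of_k6 (lt'_true q2) hg hj hi hl) (not_lt.mpr h1)
  · exact absurd (k10_of_k6 (lt'_true q2) hg hi hl hj) (not_lt.mpr h2)
  have q3 := A4c_true (A4c_true (A4c_true (A4c_true q2 hg) hi) hj) hl
  rw [Bool.or_eq_true, Bool.or_eq_true, Bool.or_eq_true, Bool.or_eq_true] at q3
  rcases q3 with q3 | q3 | q3 | q3 | q3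
  · intro hz
    unfold bitD at hz
    rw [hz] at q3
    exact absurd q3 (by decide)
  · exact absurd (lt'_true q3) (not_lt.mpr h0)
  · exact absurd (lt'_true q3) (not_lt.mpr h1)
  · exact absurd (lt'_true q3) (not_lt.mpr h2)
  · exact absurd (lt'_true q3) (not_lt.mpr h3)

theorem digits {a b c d : ℕ} (ha : a < 4) (hb : b < 4) (hc : c < 4) (hd : d < 4) :
    ∃ p < 256, g0 p = a ∧ g1 p = b ∧ g2 p = c ∧ g3 p = d := by
  refine ⟨64 * a + 16 * b + 4 * c + d, by omega, ?_, ?_, ?_, ?_⟩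
  · show (64 * a + 16 * b + 4 * c + d) / 64 = a
    omega
  · show (64 * a + 16 * b + 4 * c + d) / 16 % 4 = b
    omega
  · show (64 * a + 16 * b + 4 * c + d) / 4 % 4 = c
    omega
  · show (64 * a + 16 * b + 4 * c + d) % 4 = d
    omega

/-! ### the laws -/

theorem tab_ty {TY PA AC AF nt : ℕ} (h : tabB TY PA AC AF nt = true) {c : ℕ} (hc : c < 64) :
    tyS TY c < nt ∧ (∀ i < 64, paS PA c i < 64) ∧ tyS TY (s12 c) = tyS TY c ∧
    (∃ p < 6, (p = 0 ∨ bit AF (6 * tyS TY c + p) = 1) ∧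
      ∀ i < 64, paS PA (s12 c) (t12 i) = acS AC p (paS PA c i)) ∧
    tyS TY (s23 c) = tyS TY c ∧
    (∃ p < 6, (p = 0 ∨ bit AF (6 * tyS TY c + p) = 1) ∧
      ∀ i < 64, paS PA (s23 c) (t23 i) = acS AC p (paS PA c i)) := by
  have h1 := nall_true h c hc
  simp only [Bool.and_eq_true] at h1
  obtain ⟨⟨a1, a2⟩, ⟨a3, a4⟩, a5, a6⟩ := h1
  obtain ⟨p, hp, p1⟩ := nany_true a4
  obtain ⟨q, hq, q1⟩ := nany_true a6
  simp only [Bool.and_eq_true, Bool.or_eq_true] at p1 q1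
  refine ⟨Nat.le_of_ble_eq_true a1, fun i hi => Nat.le_of_ble_eq_true (nall_true a2 i hi),
    Nat.eq_of_beq_eq_true a3, ⟨p, hp, ?_, fun i hi => Nat.eq_of_beq_eq_true (nall_true p1.2 i hi)⟩,
    Nat.eq_of_beq_eq_true a5, ⟨q, hq, ?_, fun i hi => Nat.eq_of_beq_eq_true (nall_true q1.2 i hi)⟩⟩
  · rcases p1.1 with h | h
    · exact Or.inl (Nat.eq_of_beq_eq_true h)
    · exact Or.inr (Nat.eq_of_beq_eq_true h)
  · rcases q1.1 with h | h
    · exact Or.inl (Nat.eq_of_beq_eq_true h)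
    · exact Or.inr (Nat.eq_of_beq_eq_true h)

theorem ent_symm {AC AF : ℕ} {T : ℕ → ℕ} {t i j : ℕ} (h : symB AC AF T t = true)
    (hi : i < 64) (hj : j < 64) : ent T t i j = ent T t j i := by
  unfold symB at h
  rw [Bool.and_eq_true] at h
  have h1 := h.1
  rcases lt_trichotomy i j with hij | hij | hij
  · exact (Nat.eq_of_beq_eq_true (nall_true (nall_true h1 j hj) i hij)).symm
  · rw [hij]
  · exact Nat.eq_of_beq_eq_true (nall_true (nall_true h1 i hi) j hij)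

theorem ent_act {AC AF : ℕ} {T : ℕ → ℕ} {t p i j : ℕ} (h : symB AC AF T t = true)
    (hp : p < 6) (hp' : p = 0 ∨ bit AF (6 * t + p) = 1) (hi : i < 64) (hj : j < 64) :
    ent T t (acS AC p i) (acS AC p j) = ent T t i j := by
  rcases Nat.eq_zero_or_pos p with h0 | h0
  · rw [h0]; rfl
  · unfold symB at h
    simp only [Bool.and_eq_true] at h
    obtain ⟨q, rfl⟩ : ∃ q, p = q + 1 := ⟨p - 1, by omega⟩
    have h1 := nall_true h.2 q (by omega)
    have h2 : bit AF (Nat.add (Nat.mul 6 t) (Nat.succ q)) = 1 := by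
      rcases hp' with hp' | hp'
      · omega
      · exact hp'
    rw [h2, show Nat.beq 1 1 = true from rfl, cond_true] at h1
    exact Nat.eq_of_beq_eq_true (nall_true (nall_true h1 i hi) j hj)

theorem law_q3 {TY PA AC AF nt : ℕ} {T : ℕ → ℕ} (h : tabB TY PA AC AF nt = true)
    (hs : ∀ t < nt, symB AC AF T t = true) : Law3 (q3S TY PA T) where
  h12 := fun c i j hc hi hj => by
    obtain ⟨a1, a2, a3, ⟨p, hp, p1, p2⟩, -, -⟩ := tab_ty h hc
    unfold q3S
    rw [a3, p2 i hi, p2 j hj]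
    exact ent_act (hs _ a1) hp p1 (a2 i hi) (a2 j hj)
  h23 := fun c i j hc hi hj => by
    obtain ⟨a1, a2, -, -, a3, ⟨p, hp, p1, p2⟩⟩ := tab_ty h hc
    unfold q3S
    rw [a3, p2 i hi, p2 j hj]
    exact ent_act (hs _ a1) hp p1 (a2 i hi) (a2 j hj)
  h45 := fun c i j hc hi hj => by
    obtain ⟨a1, a2, -⟩ := tab_ty h hc
    exact ent_symm (hs _ a1) (a2 j hj) (a2 i hi)

/-! ### descent -/

section
variable {V : Type}

/-- five distinct points -/
def D5 (a b c d e : V) : Prop :=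
  a ≠ b ∧ a ≠ c ∧ a ≠ d ∧ a ≠ e ∧ b ≠ c ∧ b ≠ d ∧ b ≠ e ∧ c ≠ d ∧ c ≠ e ∧ d ≠ e

/-- code of a tuple -/
def cod (rel : V → V → ℕ) (a b c d e : V) : ℕ :=
  k10 (rel a b) (rel a c) (rel b c) (rel a d) (rel b d) (rel c d) (rel a e) (rel b e) (rel c e)
    (rel d e)

theorem leaf_all {TY PA AC AF nt X : ℕ} {T : ℕ → ℕ}
    (htab : tabB TY PA AC AF nt = true) (hsym : ∀ t < nt, symB AC AF T t = true)
    (hleaf : ∀ p < 256, ∃ BM, lmP p BM = true ∧ nestP p BM (leafB TY PA T X) = true)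
    {rel : V → V → ℕ} (hr : Rel4 rel) (N : ℕ) :
    ∀ a b c d e : V, D5 a b c d e → cod rel a b c d e = N →
      W10 rel (q3S TY PA T) a b c d e ≤ X := by
  have l3 := law_q3 htab hsym
  induction N using Nat.strong_induction_on with
  | _ N ih =>
  intro a b c d e hD hN
  obtain ⟨hab, hac, had, hae, hbc, hbd, hbe, hcd, hce, hde⟩ := hD
  by_cases c0 : cod rel b a c d e < N
  · have := ih _ c0 b a c d e ⟨hab.symm, hbc, hbd, hbe, hac, had, hae, hcd, hce, hde⟩ rfl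
    rw [W10_s0 hr l3 _ _ _ _ _ hab] at this
    exact this
  by_cases c1 : cod rel a c b d e < N
  · have := ih _ c1 a c b d e ⟨hac, hab, had, hae, hbc.symm, hcd, hce, hbd, hbe, hde⟩ rfl
    rw [W10_s1 hr l3 _ _ _ _ _ hbc] at this
    exact this
  by_cases c2 : cod rel a b d c e < N
  · have := ih _ c2 a b d c e ⟨hab, had, hac, hae, hbd, hbc, hbe, hcd.symm, hde, hce⟩ rfl
    rw [W10_s2 hr l3 _ _ _ _ _ hcd] at this
    exact this
  by_cases c3 : cod rel a b c e d < N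
  · have := ih _ c3 a b c e d ⟨hab, hac, hae, had, hbc, hbe, hbd, hce, hcd, hde.symm⟩ rfl
    rw [W10_s3 hr l3 _ _ _ _ _ hde] at this
    exact this
  have k0 : cod rel a b c d e ≤ cod rel b a c d e := by omega
  have k1 : cod rel a b c d e ≤ cod rel a c b d e := by omega
  have k2 : cod rel a b c d e ≤ cod rel a b d c e := by omega
  have k3 : cod rel a b c d e ≤ cod rel a b c e d := by omega
  unfold cod at k0 k1 k2 k3
  rw [hr.rev a b hab] at k0
  rw [hr.rev b c hbc] at k1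
  rw [hr.rev c d hcd] at k2
  rw [hr.rev d e hde] at k3
  obtain ⟨p, hp, p0, p1, p2, p3⟩ := digits (hr.lt a b) (hr.lt a c) (hr.lt b c) (hr.lt a d)
  obtain ⟨BM, hlm, hne⟩ := hleaf p hp
  unfold lmP at hlm
  unfold nestP at hne
  rw [p0, p1, p2, p3] at hlm hne
  have hz := lmc_true hlm (hr.lt a c) (hr.lt a d) (hr.lt b d) (hr.lt c d)
    (hr.lt a e) (hr.lt b e) (hr.lt c e) (hr.lt d e) k0 k1 k2 k3
  have hl := nest_true hne (hr.lt b d)
    (hr.lt c d) (hr.lt a e) (hr.lt b e) (hr.lt c e) (hr.lt d e) hz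
  rw [← hr.rev a b hab, ← hr.rev a c hac, ← hr.rev b c hbc, ← hr.rev a d had,
    ← hr.rev b d hbd, ← hr.rev c d hcd, ← hr.rev a e hae, ← hr.rev b e hbe, ← hr.rev c e hce,
    ← hr.rev d e hde] at hl
  unfold leafB at hl
  exact Nat.le_of_ble_eq_true hl
end

end Pool.Agent.U378.TF
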