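import Pool.Agent.U378.TF.Defs

/-! The totals over five vertices are invariant under permutations of the vertices. -/

set_option autoImplicit false
open Finset

namespace Pool.Agent.U378.TF

open Pool.Agent.H122R2.FdF (nall nsum nall_true nsum_eq)

theorem nany_true {n : ℕ} {f : ℕ → Bool} (h : nany n f = true) : ∃ k < n, f k = true := by
  induction n with
  | zero => exact absurd h (by simp [nany])
  | succ n ih =>
    have h' : (nany n f || f n) = true := h
    rw [Bool.or_eq_true] at h'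
    rcases h' with h' | h'
    · obtain ⟨k, hk, hf⟩ := ih h'
      exact ⟨k, by omega, hf⟩
    · exact ⟨n, by omega, h'⟩

theorem dg0_q4 {x y z : ℕ} (hx : x < 4) : dg0 (q4 x y z) = x := by
  show (x + (4 * y + 16 * z)) % 4 = x
  omega
theorem dg1_q4 {x y z : ℕ} (hx : x < 4) (hy : y < 4) : dg1 (q4 x y z) = y := by
  show (x + (4 * y + 16 * z)) / 4 % 4 = y
  omega
theorem dg2_q4 {x y z : ℕ} (hx : x < 4) (hy : y < 4) : dg2 (q4 x y z) = z := by
  show (x + (4 * y + 16 * z)) / 16 = z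
  omega

/-- relations given by codes below 4, the code of a reversed pair being `rv` of the code -/
structure Rel4 {V : Type} (rel : V → V → ℕ) : Prop where
  lt : ∀ x y, rel x y < 4
  rev : ∀ x y, x ≠ y → rel y x = rv (rel x y)

structure Law3 (f : ℕ → ℕ → ℕ → ℕ) : Prop where
  h12 : ∀ c i j, c < 64 → i < 64 → j < 64 → f (s12 c) (t12 i) (t12 j) = f c i j
  h23 : ∀ c i j, c < 64 → i < 64 → j < 64 → f (s23 c) (t23 i) (t23 j) = f c i j
  h45 : ∀ c i j, c < 64 → i < 64 → j < 64 → f c j i = f c i j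

theorem q4_lt {x y z : ℕ} (hx : x < 4) (hy : y < 4) (hz : z < 4) : q4 x y z < 64 := by
  show x + (4 * y + 16 * z) < 64
  omega

section
variable {V : Type}

/-- code of a triple -/
def c3 (rel : V → V → ℕ) (a b c : V) : ℕ := q4 (rel a b) (rel a c) (rel b c)
/-- code of the attachment of `d` to `a b c` -/
def c4 (rel : V → V → ℕ) (a b c d : V) : ℕ := q4 (rel a d) (rel b d) (rel c d)
def F3 (rel : V → V → ℕ) (f : ℕ → ℕ → ℕ → ℕ) (a b c d e : V) : ℕ :=
  f (c3 rel a b c) (c4 rel a b c d) (c4 rel a b c e)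

theorem c3_lt {rel : V → V → ℕ} (hr : Rel4 rel) (a b c : V) : c3 rel a b c < 64 :=
  q4_lt (hr.lt _ _) (hr.lt _ _) (hr.lt _ _)
theorem c4_lt {rel : V → V → ℕ} (hr : Rel4 rel) (a b c d : V) : c4 rel a b c d < 64 :=
  q4_lt (hr.lt _ _) (hr.lt _ _) (hr.lt _ _)

theorem K12 {rel : V → V → ℕ} (hr : Rel4 rel) {a b : V} (h : a ≠ b) (c : V) :
    c3 rel b a c = s12 (c3 rel a b c) := by
  unfold c3 s12
  rw [dg0_q4 (hr.lt _ _), dg1_q4 (hr.lt _ _) (hr.lt _ _), dg2_q4 (hr.lt _ _) (hr.lt _ _),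
    ← hr.rev _ _ h]
theorem K23 {rel : V → V → ℕ} (hr : Rel4 rel) (a : V) {b c : V} (h : b ≠ c) :
    c3 rel a c b = s23 (c3 rel a b c) := by
  unfold c3 s23
  rw [dg0_q4 (hr.lt _ _), dg1_q4 (hr.lt _ _) (hr.lt _ _), dg2_q4 (hr.lt _ _) (hr.lt _ _),
    ← hr.rev _ _ h]
theorem L12 {rel : V → V → ℕ} (hr : Rel4 rel) (a b c d : V) :
    c4 rel b a c d = t12 (c4 rel a b c d) := by
  unfold c4 t12
  rw [dg0_q4 (hr.lt _ _), dg1_q4 (hr.lt _ _) (hr.lt _ _), dg2_q4 (hr.lt _ _) (hr.lt _ _)]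
theorem L23 {rel : V → V → ℕ} (hr : Rel4 rel) (a b c d : V) :
    c4 rel a c b d = t23 (c4 rel a b c d) := by
  unfold c4 t23
  rw [dg0_q4 (hr.lt _ _), dg1_q4 (hr.lt _ _) (hr.lt _ _), dg2_q4 (hr.lt _ _) (hr.lt _ _)]

theorem F3_def (rel : V → V → ℕ) (f : ℕ → ℕ → ℕ → ℕ) (a b c d e : V) :
    F3 rel f a b c d e = f (c3 rel a b c) (c4 rel a b c d) (c4 rel a b c e) := rfl

section
variable {rel : V → V → ℕ} (hr : Rel4 rel) {f : ℕ → ℕ → ℕ → ℕ} (hf : Law3 f)
  (a b c d e : V)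
include hr hf

theorem F12 (h : a ≠ b) : F3 rel f b a c d e = F3 rel f a b c d e := by
  rw [F3_def, F3_def, K12 hr h c, L12 hr a b c d, L12 hr a b c e]
  exact hf.h12 _ _ _ (c3_lt hr _ _ _) (c4_lt hr _ _ _ _) (c4_lt hr _ _ _ _)
theorem F23 (h : b ≠ c) : F3 rel f a c b d e = F3 rel f a b c d e := by
  rw [F3_def, F3_def, K23 hr a h, L23 hr a b c d, L23 hr a b c e]
  exact hf.h23 _ _ _ (c3_lt hr _ _ _) (c4_lt hr _ _ _ _) (c4_lt hr _ _ _ _)
theorem F45 : F3 rel f a b c e d = F3 rel f a b c d e :=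
  hf.h45 _ _ _ (c3_lt hr _ _ _) (c4_lt hr _ _ _ _) (c4_lt hr _ _ _ _)
end

/-- the total of `f` over ten triples -/
def W10 (rel : V → V → ℕ) (f : ℕ → ℕ → ℕ → ℕ) (a b c d e : V) : ℕ :=
  S10 f (rel a b) (rel b a) (rel a c) (rel c a) (rel b c) (rel c b) (rel a d) (rel d a)
    (rel b d) (rel d b) (rel c d) (rel d c) (rel a e) (rel e a) (rel b e) (rel e b)
    (rel c e) (rel e c) (rel d e) (rel e d)

theorem W10_eq (rel : V → V → ℕ) (f : ℕ → ℕ → ℕ → ℕ) (a b c d e : V) : W10 rel f a b c d e =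
    F3 rel f a b c d e + (F3 rel f a b d c e + (F3 rel f a b e c d + (F3 rel f a c d b e + (F3 rel f a c e b d + (F3 rel f a d e b c + (F3 rel f b c d a e + (F3 rel f b c e a d + (F3 rel f b d e a c + (F3 rel f c d e a b))))))))) := rfl

theorem W10_s0 {rel : V → V → ℕ} (hr : Rel4 rel) {f : ℕ → ℕ → ℕ → ℕ}
    (hf : Law3 f) (a b c d e : V) (h : a ≠ b) : W10 rel f b a c d e = W10 rel f a b c d e := by
  rw [W10_eq, W10_eq]
  have h0 : F3 rel f b a c d e = F3 rel f a b c d e := by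
    rw [F12 hr hf a b c d e h]
  have h1 : F3 rel f b a d c e = F3 rel f a b d c e := by
    rw [F12 hr hf a b d c e h]
  have h2 : F3 rel f b a e c d = F3 rel f a b e c d := by
    rw [F12 hr hf a b e c d h]
  have h3 : F3 rel f c d e b a = F3 rel f c d e a b := by
    rw [F45 hr hf c d e a b]
  omega

theorem W10_s1 {rel : V → V → ℕ} (hr : Rel4 rel) {f : ℕ → ℕ → ℕ → ℕ}
    (hf : Law3 f) (a b c d e : V) (h : b ≠ c) : W10 rel f a c b d e = W10 rel f a b c d e := by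
  rw [W10_eq, W10_eq]
  have h0 : F3 rel f a c b d e = F3 rel f a b c d e := by
    rw [F23 hr hf a b c d e h]
  have h1 : F3 rel f a d e c b = F3 rel f a d e b c := by
    rw [F45 hr hf a d e b c]
  have h2 : F3 rel f c b d a e = F3 rel f b c d a e := by
    rw [F12 hr hf b c d a e h]
  have h3 : F3 rel f c b e a d = F3 rel f b c e a d := by
    rw [F12 hr hf b c e a d h]
  omega

theorem W10_s2 {rel : V → V → ℕ} (hr : Rel4 rel) {f : ℕ → ℕ → ℕ → ℕ}
    (hf : Law3 f) (a b c d e : V) (h : c ≠ d) : W10 rel f a b d c e = W10 rel f a b c d e := by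
  rw [W10_eq, W10_eq]
  have h0 : F3 rel f a b e d c = F3 rel f a b e c d := by
    rw [F45 hr hf a b e c d]
  have h1 : F3 rel f a d c b e = F3 rel f a c d b e := by
    rw [F23 hr hf a c d b e h]
  have h2 : F3 rel f b d c a e = F3 rel f b c d a e := by
    rw [F23 hr hf b c d a e h]
  have h3 : F3 rel f d c e a b = F3 rel f c d e a b := by
    rw [F12 hr hf c d e a b h]
  omega

theorem W10_s3 {rel : V → V → ℕ} (hr : Rel4 rel) {f : ℕ → ℕ → ℕ → ℕ}
    (hf : Law3 f) (a b c d e : V) (h : d ≠ e) : W10 rel f a b c e d = W10 rel f a b c d e := by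
  rw [W10_eq, W10_eq]
  have h0 : F3 rel f a b c e d = F3 rel f a b c d e := by
    rw [F45 hr hf a b c d e]
  have h1 : F3 rel f a e d b c = F3 rel f a d e b c := by
    rw [F23 hr hf a d e b c h]
  have h2 : F3 rel f b e d a c = F3 rel f b d e a c := by
    rw [F23 hr hf b d e a c h]
  have h3 : F3 rel f c e d a b = F3 rel f c d e a b := by
    rw [F23 hr hf c d e a b h]
  omega

end

end Pool.Agent.U378.TF
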